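import Pool.Agent.L5helper32.GP.D.Defs

set_option autoImplicit false

open Finset MeasureTheory ProbabilityTheory Filter Topology

namespace Pool.Agent.L5helper32.GP

open Pool.Agent.L5helper32.GR (Root w pr sg Dep lev q)

variable {Ω : Type} [MeasurableSpace Ω] {μ : Measure Ω} [IsProbabilityMeasure μ]
  {T : ℕ × ℕ × ℕ → Ω → ℕ}

open Classical in
/-- D6: the chain of the descents. -/
theorem chain_le {p : ℕ} (hp : p.Prime) (h : Res μ T) {P : ℕ → Set (ℕ × ℕ × ℕ → ℕ)}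
    (hP : ∀ n, ∃ R, Dep (bx {n} R) (P n)) {q' : ℝ} (hq : 0 ≤ q') {z₂ : ℕ} (hz₂ : 1 ≤ z₂)
    (hstep : ∀ z ≥ z₂, ∀ (n R : ℕ) (A : Set (ℕ × ℕ × ℕ → ℕ)),
      Dep (bx (range ((lev p z + 3) / 4)) R) A →
      Pr μ T (A ∩ {f | (GoodRun p (cur f) z ∧ nextZero p (cur f) z = n) ∧ f ∈ P n})
        ≤ q' * Pr μ T (A ∩ {f | GoodRun p (cur f) z ∧ nextZero p (cur f) z = n}))
    (hlev : ∀ z ≥ z₂, ∀ n : ℕ, lev p z ≤ 4 * n → lev p z < (lev p n + 3) / 4 ∧ z < n) :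
    ∀ (k : ℕ) (S : ℕ → Prop) (z : ℕ), z₂ ≤ z → ∀ (R : ℕ) (A : Set (ℕ × ℕ × ℕ → ℕ)),
      Dep (bx (range ((lev p z + 3) / 4)) R) A →
      Pr μ T {f | f ∈ A ∧ CK p P f k S z} ≤ q' ^ (#{j ∈ range k | S j}) * Pr μ T A := by
  sorry

end Pool.Agent.L5helper32.GP
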